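import Pool.Agent.N408.IB.Stm

open Real Set MeasureTheory IB408

namespace N408.IB.Asm

/-- existence of the profile -/
theorem prof (hMID : S_MID) (hODD1 : S_ODD1) (hBAS1 : S_BAS1)
    (hFIX : S_FIX) (hSGN0 : S_SGN0) (hSGN1 : S_SGN1)
    (hEND2 : S_END2) (hREG1 : S_REG1) (hREG2 : S_REG2) (hLOC : S_LOC) (hEQF : S_EQF)
    (hSDF : S_SDF) :
    ∃ h : ℝ → ℝ, Prof h ∧ Eqn h ∧ h π < h 0 ∧ h (π / 4) = h (π - π / 4) := by
  obtain ⟨Q, hQ, hcont⟩ := hFIX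
  have h0 := hSGN0 (Q 0) (hQ 0 le_rfl (by norm_num)).1
  have h1 := hSGN1 (Q (1 / 10)) (hQ (1 / 10) (by norm_num) le_rfl).1
  obtain ⟨w, hw, hw0⟩ : (0 : ℝ) ∈ (fun w => Av (Q w) w b) '' Icc (0 : ℝ) (1 / 10) := by
    apply intermediate_value_Icc' (by norm_num) hcont
    exact ⟨h1.le, h0.le⟩
  have hsol : Sol (Q w) w := ⟨(hQ w hw.1 hw.2).1, hw.1, hw.2, (hQ w hw.1 hw.2).2, hw0⟩
  set q := Q w with hq
  have hadm := hsol.1
  -- Pcap al = 1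
  have hb1 := hBAS1 q hadm
  have hbsmall : (52 / 10000 : ℝ) * b ^ 2 ≤ 1 / 10 := by unfold b; norm_num
  have halpos : 0 < al := lt_of_lt_of_le (by unfold b; norm_num) hODD1.1.1
  have hal1 : al ≤ 1 := le_trans hODD1.1.2.1 (by unfold b; norm_num)
  have hleg : ∀ σ, σ = 1 ∨ σ = -1 → Leg (hc q σ) al = 1 := by
    intro σ hσ
    obtain ⟨c1, c2, c3⟩ := hb1.1 σ hσ
    exact hMID (hc q σ) c1 (fun ψ => le_trans (c2 ψ) hbsmall) c3 (hEND2 q w hsol σ hσ) al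
      (by rw [abs_of_pos halpos]) (by rw [abs_of_pos halpos]; exact hal1)
  have hP : Pcap q al = 1 := by
    unfold Pcap
    rw [hleg 1 (Or.inl rfl), hleg (-1) (Or.inr rfl)]
    norm_num
  have hst := hREG1 q hadm hP
  have hqq := hREG2 q w hsol hst
  have hsd := hSDF q w hsol hst hqq
  obtain ⟨l1, l2, l3, l4, -, -, -, -, l5, l6⟩ := hLOC q w hsol
  exact ⟨hfin q w, ⟨l1, l2, l3, l4, hsd⟩, hEQF q w hsol, l5, l6⟩

/-- the geometric part -/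
theorem geom (hSUP2 : S_SUP2) (hBOD : S_BOD) (hSEC : S_SEC) (hLIM : S_LIM) (hPOL : S_POL)
    (hNSY : S_NSY) (h : ℝ → ℝ) (hp : Prof h) (he : Eqn h) (h1 : h π < h 0)
    (h2 : h (π / 4) = h (π - π / 4)) :
    ∃ K : Set E4, Convex ℝ K ∧ IsCompact K ∧ (0 : E4) ∈ interior K ∧
      (¬ ∃ z : E4, ∀ x, (x ∈ K ↔ z - x ∈ K)) ∧
      {x : E4 | ∀ y : E4, (y = 0 ∨ ‖y‖ ≤
        (volume {v : (Submodule.span ℝ {y})ᗮ | (v : E4) ∈ K}).toReal) → inner ℝ x y ≤ 1} =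
      (fun z : E4 => (3 / (4 * π)) • z) '' {z | ∃ x ∈ K, ∃ y ∈ K, z = (1 / 2 : ℝ) • (x - y)} := by
  have hbod := hBOD h hp (hSUP2 h hp)
  refine ⟨Ks h, hbod.1, hbod.2.1, ?_, hNSY h hp hbod.2.2.2 h1 h2, ?_⟩
  · rw [mem_interior_iff_mem_nhds]
    exact Filter.mem_of_superset (Metric.ball_mem_nhds (0 : E4) (by norm_num)) hbod.2.2.1
  · apply hPOL h hp hbod
    intro u hu
    rw [hSEC h hp u hu]
    have hab : |inner ℝ u ax| ≤ 1 := by
      have := abs_real_inner_le_norm u ax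
      have hax : ‖ax‖ = 1 := by simp [ax]
      rw [hu, hax] at this
      simpa using this
    have := hLIM h hp he (arccos (inner ℝ u ax)) (arccos_nonneg _) (arccos_le_pi _)
    rw [sin_arccos] at this
    exact this

end N408.IB.Asm
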