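import Mathlib

/-!
# Project IB (MP_7a8df2_gt): a non-symmetric convex body in R^4 whose polar intersection body
is homothetic to its central symmetral.  Definitions and the statements of the leaves.
-/

open Real Set MeasureTheory

namespace IB408

noncomputable section

/-- Radial function, in the direction at angle `θ`, of the plane (or rotationally symmetric)
body with support function `h`. -/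
def Leg (h : ℝ → ℝ) (θ : ℝ) : ℝ := sInf ((fun d => h (θ + d) / cos d) '' Icc (-1 : ℝ) 1)

/-- sine of the angular size of the caps and of the belt -/
def b : ℝ := 1 / 1000000

def al : ℝ := arcsin b

def c : ℝ := cos al

/-- cap bump (to be added at one pole and subtracted at the other one) -/
def oc (ψ : ℝ) : ℝ := (1 / 100) * max (cos ψ - c) 0 ^ 2 / (1 - c)

/-- odd belt perturbation -/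
def ob (w γ : ℝ) : ℝ := w * sin γ * max (b ^ 2 - sin γ ^ 2) 0 ^ 2 / b ^ 2

/-- support function near a pole -/
def hc (q : ℝ → ℝ) (σ ψ : ℝ) : ℝ := 1 + q (sin ψ) + σ * oc ψ

def Pcap (q : ℝ → ℝ) (θ : ℝ) : ℝ := (Leg (hc q 1) θ ^ 3 + Leg (hc q (-1)) θ ^ 3) / 2

def Pint (q : ℝ → ℝ) (γ : ℝ) : ℝ := ∫ θ in (min |γ| al)..al, (Pcap q θ - 1) * sin θ

def st (q : ℝ → ℝ) (γ : ℝ) : ℝ :=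
  cos (min |γ| al) / (cos (min |γ| al) + Pint q γ) - 1

/-- support function near the equator, `γ` = latitude -/
def hb (q : ℝ → ℝ) (w γ : ℝ) : ℝ := 1 + st q γ + ob w γ

def Pbelt (q : ℝ → ℝ) (w β : ℝ) : ℝ := (Leg (hb q w) β ^ 3 + Leg (hb q w) (-β) ^ 3) / 2

def pt (q : ℝ → ℝ) (w t : ℝ) : ℝ := Pbelt q w (arcsin t) - 1

def Av (q : ℝ → ℝ) (w x : ℝ) : ℝ := ∫ τ in (0 : ℝ)..1, pt q w (τ * x)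

/-- clamp to `[-b, b]` -/
def cl (x : ℝ) : ℝ := max (-b) (min x b)

def Tw (w : ℝ) (q : ℝ → ℝ) (x : ℝ) : ℝ :=
  1 / (1 + Av q w (cl x) - (cl x / b) ^ 2 * Av q w b) - 1

/-- admissible even cap perturbations -/
def Adm (q : ℝ → ℝ) : Prop :=
  Continuous q ∧ (∀ x, q (-x) = q x) ∧ (∀ x, b ≤ |x| → q x = 0) ∧ ∀ x, |q x| ≤ b ^ 3

/-- the final profile (support function of the body at angle `ψ` from the axis) -/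
def hfin (q : ℝ → ℝ) (w ψ : ℝ) : ℝ :=
  1 + q (sin ψ) + st q (arcsin (cos ψ)) + oc ψ - oc (π - ψ) + ob w (π / 2 - ψ)

/-! ## Leaves: the operator `Leg` -/

/-- IB/L1 -/
def S_L1 : Prop := ∀ h : ℝ → ℝ, Continuous h → (∀ ψ, |h ψ - 1| ≤ 1 / 10) →
  (∀ θ, ∃ d ∈ Icc (-1 : ℝ) 1, Leg h θ = h (θ + d) / cos d) ∧
  (∀ θ, ∀ d ∈ Icc (-1 : ℝ) 1, Leg h θ ≤ h (θ + d) / cos d) ∧
  Continuous (Leg h) ∧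
  (∀ e, e ≤ 1 / 10 → (∀ ψ, |h ψ - 1| ≤ e) → ∀ θ, |Leg h θ - 1| ≤ e) ∧
  (∀ g : ℝ → ℝ, Continuous g → (∀ ψ, |g ψ - 1| ≤ 1 / 10) → ∀ η, (∀ ψ, |h ψ - g ψ| ≤ η) →
    ∀ θ, |Leg h θ - Leg g θ| ≤ 2 * η)

/-- IB/L2 -/
def S_L2 : Prop := ∀ h : ℝ → ℝ, Continuous h → (∀ ψ, |h ψ - 1| ≤ 1 / 10) →
  (∀ K, (∀ x y, |h x - h y| ≤ K * |x - y|) → ∀ x y, |Leg h x - Leg h y| ≤ 2 * K * |x - y|) ∧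
  (∀ e, 0 ≤ e → e ≤ 1 / 100 → (∀ ψ, |h ψ - 1| ≤ e) →
    ∀ x y, |Leg h x - Leg h y| ≤ 4 * √e * |x - y|) ∧
  (∀ C, 0 ≤ C → (∀ x δ, h (x + δ) + h (x - δ) - 2 * h x ≤ C * δ ^ 2) →
    ∀ x δ, Leg h (x + δ) + Leg h (x - δ) - 2 * Leg h x ≤ 2 * C * δ ^ 2) ∧
  (∀ K, 0 ≤ K → K ≤ 1 / 10 → (∀ x y, |h x - h y| ≤ K * |x - y|) →
    ∀ x, h x - 2 * K ^ 2 ≤ Leg h x) ∧
  ((∀ x, h (-x) = h x) → ∀ x, Leg h (-x) = Leg h x)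

/-- IB/MID -/
def S_MID : Prop := ∀ g : ℝ → ℝ, Continuous g → (∀ ψ, |g ψ - 1| ≤ 1 / 10) →
  (∀ ψ, al ≤ |ψ| → |ψ| ≤ 2 → g ψ = 1) → (∀ ψ, |ψ| ≤ al → cos (al - |ψ|) ≤ g ψ) →
  ∀ θ, al ≤ |θ| → |θ| ≤ 1 → Leg g θ = 1

/-! ## Leaves: explicit bumps -/

/-- IB/ODD1 -/
def S_ODD1 : Prop :=
  (b ≤ al ∧ al ≤ (1001 / 1000) * b ∧ sin al = b ∧ cos al = c ∧ 0 < c ∧ c < 1 ∧
    b ^ 2 / 2 ≤ 1 - c ∧ 1 - c ≤ (51 / 100) * b ^ 2) ∧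
  Continuous oc ∧ (∀ ψ, oc (-ψ) = oc ψ) ∧ (∀ ψ, 0 ≤ oc ψ) ∧
  (∀ ψ, oc ψ ≤ (51 / 10000) * b ^ 2) ∧ (∀ ψ, cos ψ ≤ c → oc ψ = 0) ∧
  (∀ x y, |oc x - oc y| ≤ b / 100 * |x - y|) ∧
  (∀ x δ, |oc (x + δ) + oc (x - δ) - 2 * oc x| ≤ (7 / 100) * δ ^ 2) ∧
  (∀ ψ, |ψ| ≤ al → oc ψ ≤ (3 / 100) * (al - |ψ|) ^ 2)

/-- IB/ODD2 -/
def S_ODD2 : Prop := ∀ w, 0 ≤ w → w ≤ 1 / 10 →
  Continuous (ob w) ∧ (∀ γ, ob w (-γ) = -ob w γ) ∧ (∀ γ, |ob w γ| ≤ w * (3 / 10) * b ^ 3) ∧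
  (∀ γ, b ≤ |sin γ| → ob w γ = 0) ∧
  (∀ x y, |ob w x - ob w y| ≤ w * b ^ 2 * |x - y|) ∧
  (∀ x δ, |ob w (x + δ) + ob w (x - δ) - 2 * ob w x| ≤ b * δ ^ 2) ∧
  (∀ γ, |γ| ≤ al → |ob w γ| ≤ 4 * w * b * (al - |γ|) ^ 2) ∧
  (∀ w', 0 ≤ w' → w' ≤ 1 / 10 → ∀ γ, |ob w γ - ob w' γ| ≤ |w - w'| * b ^ 3)

/-! ## Leaves: basic properties of the construction -/

/-- IB/BAS1 -/
def S_BAS1 : Prop := ∀ q, Adm q →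
  (∀ σ, σ = 1 ∨ σ = -1 → Continuous (hc q σ) ∧ (∀ ψ, |hc q σ ψ - 1| ≤ (52 / 10000) * b ^ 2) ∧
    (∀ ψ, al ≤ |ψ| → |ψ| ≤ 2 → hc q σ ψ = 1)) ∧
  Continuous (Pcap q) ∧ (∀ θ, |Pcap q θ - 1| ≤ (16 / 1000) * b ^ 2) ∧
  (∀ x y, |Pcap q x - Pcap q y| ≤ b * |x - y|) ∧
  Continuous (st q) ∧ (∀ γ, |st q γ| ≤ b ^ 4 / 100) ∧ (∀ γ, st q (-γ) = st q γ) ∧
  (∀ γ, al ≤ |γ| → st q γ = 0) ∧ (∀ x y, |st q x - st q y| ≤ b ^ 3 * |x - y|) ∧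
  (∀ γ, |Pint q γ| ≤ (9 / 1000) * b ^ 4) ∧ Continuous (Pint q)

/-- IB/BAS2 -/
def S_BAS2 : Prop := ∀ q w, Adm q → 0 ≤ w → w ≤ 1 / 10 →
  Continuous (hb q w) ∧ (∀ γ, |hb q w γ - 1| ≤ b ^ 3 / 20) ∧
  (∀ γ, al ≤ |γ| → |γ| ≤ 2 → hb q w γ = 1) ∧
  (∀ x y, |hb q w x - hb q w y| ≤ b ^ 2 / 5 * |x - y|) ∧
  Continuous (Pbelt q w) ∧ (∀ β, |Pbelt q w β - 1| ≤ b ^ 3 / 5) ∧
  (∀ x y, |Pbelt q w x - Pbelt q w y| ≤ 2 * b ^ 2 * |x - y|) ∧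
  (∀ β, Pbelt q w (-β) = Pbelt q w β) ∧
  Continuous (pt q w) ∧ (∀ t, |pt q w t| ≤ b ^ 3 / 5) ∧
  Continuous (Av q w) ∧ (∀ x, |Av q w x| ≤ b ^ 3 / 5) ∧ (∀ x, Av q w (-x) = Av q w x) ∧
  (∀ x, x * Av q w x = ∫ t in (0 : ℝ)..x, pt q w t)

/-- IB/DIF -/
def S_DIF : Prop := ∀ q q' w w' η, Adm q → Adm q' → 0 ≤ w → w ≤ 1 / 10 → 0 ≤ w' → w' ≤ 1 / 10 →
  (∀ x, |q x - q' x| ≤ η) → ∀ x, |Av q w x - Av q' w' x| ≤ η / 100 + |w - w'|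

/-- IB/FIX -/
def S_FIX : Prop := ∃ Q : ℝ → ℝ → ℝ,
  (∀ w, 0 ≤ w → w ≤ 1 / 10 → Adm (Q w) ∧ ∀ x, Q w x = Tw w (Q w) x) ∧
  ContinuousOn (fun w => Av (Q w) w b) (Icc (0 : ℝ) (1 / 10))

/-- IB/SGN0 -/
def S_SGN0 : Prop := ∀ q, Adm q → 0 < Av q 0 b

/-- IB/SGN1 -/
def S_SGN1 : Prop := ∀ q, Adm q → Av q (1 / 10) b < 0

/-- a solution of the fixed point problem with vanishing total belt mass -/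
def Sol (q : ℝ → ℝ) (w : ℝ) : Prop :=
  Adm q ∧ 0 ≤ w ∧ w ≤ 1 / 10 ∧ (∀ x, q x = Tw w q x) ∧ Av q w b = 0

/-- IB/END1 -/
def S_END1 : Prop := ∀ q w, Adm q → 0 ≤ w → w ≤ 1 / 10 →
  ∀ γ, |γ| ≤ al → cos (al - |γ|) ≤ hb q w γ

/-- IB/END2 -/
def S_END2 : Prop := ∀ q w, Sol q w → ∀ σ, σ = 1 ∨ σ = -1 →
  ∀ ψ, |ψ| ≤ al → cos (al - |ψ|) ≤ hc q σ ψ

/-- IB/REG1 -/
def S_REG1 : Prop := ∀ q, Adm q → Pcap q al = 1 →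
  ∀ γ δ, |st q (γ + δ) + st q (γ - δ) - 2 * st q γ| ≤ b * δ ^ 2

/-- IB/REG2 -/
def S_REG2 : Prop := ∀ q w, Sol q w →
  (∀ γ δ, |st q (γ + δ) + st q (γ - δ) - 2 * st q γ| ≤ b * δ ^ 2) →
  ∀ ψ δ, |δ| ≤ 1 / 10 →
    -(1 / 10) * δ ^ 2 ≤ q (sin (ψ + δ)) + q (sin (ψ - δ)) - 2 * q (sin ψ)

/-- IB/LOC -/
def S_LOC : Prop := ∀ q w, Sol q w →
  Continuous (hfin q w) ∧ (∀ ψ, hfin q w (-ψ) = hfin q w ψ) ∧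
  (∀ ψ, hfin q w (ψ + 2 * π) = hfin q w ψ) ∧ (∀ ψ, |hfin q w ψ - 1| ≤ 1 / 100) ∧
  (∀ θ, |θ| ≤ 1 / 4 → Leg (hfin q w) θ = Leg (hc q 1) θ) ∧
  (∀ θ, |θ| ≤ 1 / 4 → Leg (hfin q w) (π - θ) = Leg (hc q (-1)) θ) ∧
  (∀ β, |β| ≤ 1 / 4 → Leg (hfin q w) (π / 2 - β) = Leg (hb q w) β) ∧
  (∀ θ, al ≤ θ → θ ≤ π / 2 - al → Leg (hfin q w) θ = 1 ∧ Leg (hfin q w) (π - θ) = 1) ∧
  hfin q w π < hfin q w 0 ∧ hfin q w (π / 4) = hfin q w (π - π / 4)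

/-- IB/EQF -/
def S_EQF : Prop := ∀ q w, Sol q w → ∀ ψ, 0 < ψ → ψ < π →
  (hfin q w ψ + hfin q w (π - ψ)) / 2 *
    (∫ t in (0 : ℝ)..sin ψ, (Leg (hfin q w) (arccos t) ^ 3 + Leg (hfin q w) (π - arccos t) ^ 3) / 2)
    = sin ψ

/-- IB/SDF -/
def S_SDF : Prop := ∀ q w, Sol q w →
  (∀ γ δ, |st q (γ + δ) + st q (γ - δ) - 2 * st q γ| ≤ b * δ ^ 2) →
  (∀ ψ δ, |δ| ≤ 1 / 10 →
    -(1 / 10) * δ ^ 2 ≤ q (sin (ψ + δ)) + q (sin (ψ - δ)) - 2 * q (sin ψ)) →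
  ∀ ψ δ, |δ| ≤ 1 / 10 →
    -(2 / 5) * δ ^ 2 ≤ hfin q w (ψ + δ) + hfin q w (ψ - δ) - 2 * hfin q w ψ

/-! ## Leaves: convex geometry -/

/-- profiles of convex bodies of revolution close to the unit ball -/
def Prof (h : ℝ → ℝ) : Prop :=
  Continuous h ∧ (∀ ψ, h (-ψ) = h ψ) ∧ (∀ ψ, h (ψ + 2 * π) = h ψ) ∧ (∀ ψ, |h ψ - 1| ≤ 1 / 100) ∧
  ∀ ψ δ, |δ| ≤ 1 / 10 → -(2 / 5) * δ ^ 2 ≤ h (ψ + δ) + h (ψ - δ) - 2 * h ψ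

/-- IB/SUP1 -/
def S_SUP1 : Prop := ∀ (f : ℝ → ℝ) (C : ℝ), 0 ≤ C → Continuous f →
  (∀ x δ, |δ| ≤ 1 / 10 → -C * δ ^ 2 ≤ f (x + δ) + f (x - δ) - 2 * f x) →
  ∀ x, ∃ m, ∀ d, f x + m * d - C / 2 * d ^ 2 ≤ f (x + d)

/-- IB/SUP2 -/
def S_SUP2 : Prop := ∀ h, Prof h → ∀ ψ₀, ∃ a a' : ℝ,
  (∀ ψ, a * cos ψ + a' * sin ψ ≤ h ψ) ∧ a * cos ψ₀ + a' * sin ψ₀ = h ψ₀

abbrev E4 := EuclideanSpace ℝ (Fin 4)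

abbrev E3 := EuclideanSpace ℝ (Fin 3)

def ax : E4 := EuclideanSpace.single 0 1

/-- the body of revolution with profile `h` -/
def Ks (h : ℝ → ℝ) : Set E4 :=
  {x | ∀ u : E4, ‖u‖ = 1 → inner ℝ x u ≤ h (arccos (inner ℝ u ax))}

/-- IB/BOD -/
def S_BOD : Prop := ∀ h, Prof h →
  (∀ ψ₀, ∃ a a' : ℝ, (∀ ψ, a * cos ψ + a' * sin ψ ≤ h ψ) ∧ a * cos ψ₀ + a' * sin ψ₀ = h ψ₀) →
  Convex ℝ (Ks h) ∧ IsCompact (Ks h) ∧ Metric.ball (0 : E4) (1 / 2) ⊆ Ks h ∧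
  ∀ u : E4, ‖u‖ = 1 → ∃ x ∈ Ks h, inner ℝ x u = h (arccos (inner ℝ u ax))

/-- IB/RAD -/
def S_RAD : Prop := ∀ h, Prof h → ∀ v : E4, ‖v‖ = 1 → ∀ r : ℝ, 0 ≤ r →
  (r • v ∈ Ks h ↔ r ≤ Leg h (arccos (inner ℝ v ax)))

/-- IB/VOLA -/
def S_VOLA : Prop := ∀ f : ℝ × ℝ → ENNReal, Measurable f →
  ∫⁻ y : E3, f (y 0, √(y 1 ^ 2 + y 2 ^ 2)) =
    ∫⁻ p in (univ : Set ℝ) ×ˢ (Ioi (0 : ℝ)), ENNReal.ofReal (2 * π * p.2) * f p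

/-- IB/VOL3 -/
def S_VOL3 : Prop := ∀ R : ℝ → ℝ, Continuous R → (∀ s, 0 ≤ R s) →
  volume {y : E3 | ‖y‖ ≤ R (y 0 / ‖y‖)} =
    ENNReal.ofReal (2 * π / 3 * ∫ s in (-1 : ℝ)..1, R s ^ 3)

/-- IB/ISO -/
def S_ISO : Prop := ∀ u : E4, ‖u‖ = 1 → ∃ L : ↥((Submodule.span ℝ {u})ᗮ) ≃ₗᵢ[ℝ] E3,
  ∀ v : (Submodule.span ℝ {u})ᗮ,
    inner ℝ (v : E4) ax = √(1 - inner ℝ u ax ^ 2) * (L v) 0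

/-- IB/SEC -/
def S_SEC : Prop := ∀ h, Prof h → ∀ u : E4, ‖u‖ = 1 →
  (volume {v : (Submodule.span ℝ {u})ᗮ | (v : E4) ∈ Ks h}).toReal =
    2 * π / 3 * ∫ s in (-1 : ℝ)..1, Leg h (arccos (√(1 - inner ℝ u ax ^ 2) * s)) ^ 3

/-- the functional equation of the profile -/
def Eqn (h : ℝ → ℝ) : Prop := ∀ ψ, 0 < ψ → ψ < π →
  (h ψ + h (π - ψ)) / 2 *
    (∫ t in (0 : ℝ)..sin ψ, (Leg h (arccos t) ^ 3 + Leg h (π - arccos t) ^ 3) / 2) = sin ψ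

/-- IB/LIM -/
def S_LIM : Prop := ∀ h, Prof h → Eqn h → ∀ ψ, 0 ≤ ψ → ψ ≤ π →
  (h ψ + h (π - ψ)) / 2 * (2 * π / 3 * ∫ s in (-1 : ℝ)..1, Leg h (arccos (sin ψ * s)) ^ 3)
    = 4 * π / 3

/-- IB/DEL -/
def S_DEL : Prop := ∀ (K : Set E4) (H : E4 → ℝ), Convex ℝ K → IsCompact K →
  (∀ u : E4, ‖u‖ = 1 → (∀ x ∈ K, inner ℝ x u ≤ H u) ∧ ∃ x ∈ K, inner ℝ x u = H u) →
  ∀ z : E4, (∃ x ∈ K, ∃ y ∈ K, z = (1 / 2 : ℝ) • (x - y)) ↔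
    ∀ u : E4, ‖u‖ = 1 → inner ℝ z u ≤ (H u + H (-u)) / 2

/-- IB/POL -/
def S_POL : Prop := ∀ h, Prof h →
  (Convex ℝ (Ks h) ∧ IsCompact (Ks h) ∧ Metric.ball (0 : E4) (1 / 2) ⊆ Ks h ∧
    ∀ u : E4, ‖u‖ = 1 → ∃ x ∈ Ks h, inner ℝ x u = h (arccos (inner ℝ u ax))) →
  (∀ u : E4, ‖u‖ = 1 →
    (h (arccos (inner ℝ u ax)) + h (π - arccos (inner ℝ u ax))) / 2 *
      (volume {v : (Submodule.span ℝ {u})ᗮ | (v : E4) ∈ Ks h}).toReal = 4 * π / 3) →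
  {x : E4 | ∀ y : E4, (y = 0 ∨ ‖y‖ ≤
      (volume {v : (Submodule.span ℝ {y})ᗮ | (v : E4) ∈ Ks h}).toReal) → inner ℝ x y ≤ 1} =
    (fun z : E4 => (3 / (4 * π)) • z) '' {z | ∃ x ∈ Ks h, ∃ y ∈ Ks h, z = (1 / 2 : ℝ) • (x - y)}

/-- IB/NSY -/
def S_NSY : Prop := ∀ h, Prof h →
  (∀ u : E4, ‖u‖ = 1 → ∃ x ∈ Ks h, inner ℝ x u = h (arccos (inner ℝ u ax))) →
  h π < h 0 → h (π / 4) = h (π - π / 4) →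
  ¬ ∃ z : E4, ∀ x, (x ∈ Ks h ↔ z - x ∈ Ks h)

end

end IB408
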