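import Pool.Agent.N408.IB.L1
import Pool.Agent.N408.IB.Asm
import Pool.Agent.N136.IB.END2
import Pool.Agent.N137.IB.EQF
import Pool.Agent.N143.IB.ODD2
import Pool.Agent.N225.IB.REG1
import Pool.Agent.N239.IB.FIX
import Pool.Agent.N289.IB.SDF
import Pool.Agent.N342.IB.END1
import Pool.Agent.N344.IB.SUP2
import Pool.Agent.N403.IB.LIM
import Pool.Agent.N42.IB.ODD1
import Pool.Agent.N427.IB.L2
import Pool.Agent.N487.IB.POL
import Pool.Agent.N49.IB.VOLA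
import Pool.Agent.N492.IB.DEL
import Pool.Agent.N519.IB.BAS2
import Pool.Agent.N574.IB.MID
import Pool.Agent.N628.IB.BAS1
import Pool.Agent.N654.IB.NSY
import Pool.Agent.N665.IB.SUP1
import Pool.Agent.N692.IB.RAD
import Pool.Agent.N693.IB.REG2
import Pool.Agent.N711.IB.DIF
import Pool.Agent.N749.IB.LOC
import Pool.Agent.N823.IB.SGN1
import Pool.Agent.N861.IB.VOL3
import Pool.Agent.N862.IB.SEC
import Pool.Agent.N935.IB.BOD
import Pool.Agent.N942.IB.ISO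

open Real Set MeasureTheory IB408

namespace N408.IB.All

theorem l1 : S_L1 := N408.IB.L1.t
theorem l2 : S_L2 := N427.IB.L2.t l1
theorem mid : S_MID := N574.IB.MID.t l1
theorem odd1 : S_ODD1 := N42.IB.ODD1.t
theorem odd2 : S_ODD2 := N143.IB.ODD2.t
theorem bas1 : S_BAS1 := N628.IB.BAS1.t l1 l2 odd1
theorem bas2 : S_BAS2 := N519.IB.BAS2.t l1 l2 odd1 odd2 bas1
theorem dif : S_DIF := N711.IB.DIF.t l1 odd1 odd2 bas1 bas2
theorem fix : S_FIX := N239.IB.FIX.t bas2 dif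
theorem sgn1 : S_SGN1 := N823.IB.SGN1.t l1 l2 odd1 odd2 bas1 bas2
theorem end1 : S_END1 := N342.IB.END1.t l1 odd1 odd2 bas1
theorem end2 : S_END2 := N136.IB.END2.t mid odd1 bas2 end1
theorem reg1 : S_REG1 := N225.IB.REG1.t l1 odd1 bas1
theorem reg2 : S_REG2 := N693.IB.REG2.t l1 l2 mid odd2 bas2 end1
theorem loc : S_LOC := N749.IB.LOC.t l1 odd1 odd2 bas1 end1 end2
theorem eqf : S_EQF := N137.IB.EQF.t l1 odd1 odd2 bas1 bas2 loc
theorem sdf : S_SDF := N289.IB.SDF.t odd1 odd2 bas1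
theorem sup2 : S_SUP2 := N344.IB.SUP2.t Pool.Agent.N665.IB.SUP1.t
theorem rad : S_RAD := N692.IB.RAD.t l1
theorem vol3 : S_VOL3 := N861.IB.VOL3.t N49.IB.VOLA.t
theorem sec : S_SEC := N862.IB.SEC.t l1 rad vol3 N942.IB.ISO.t
theorem lim : S_LIM := N403.IB.LIM.t l1
theorem pol : S_POL := N487.IB.POL.t N492.IB.DEL.t
theorem nsy : S_NSY := N654.IB.NSY.t
theorem bod : S_BOD := N935.IB.BOD.t

theorem main (hs : S_SGN0) : ∃ K : Set E4, Convex ℝ K ∧ IsCompact K ∧ (0 : E4) ∈ interior K ∧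
      (¬ ∃ z : E4, ∀ x, (x ∈ K ↔ z - x ∈ K)) ∧
      {x : E4 | ∀ y : E4, (y = 0 ∨ ‖y‖ ≤
        (volume {v : (Submodule.span ℝ {y})ᗮ | (v : E4) ∈ K}).toReal) → inner ℝ x y ≤ 1} =
      (fun z : E4 => (3 / (4 * π)) • z) '' {z | ∃ x ∈ K, ∃ y ∈ K, z = (1 / 2 : ℝ) • (x - y)} := by
  obtain ⟨h, h1, h2, h3, h4⟩ := N408.IB.Asm.prof mid odd1 bas1 fix hs sgn1 end2 reg1 reg2 loc eqf sdf
  exact N408.IB.Asm.geom sup2 bod sec lim pol nsy h h1 h2 h3 h4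

end N408.IB.All
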