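import Pool.Agent.N408.IB.Stm

open Real Set MeasureTheory IB408

namespace N408.IB.L1

lemma cos_lb {d : ℝ} (hd : d ∈ Icc (-1 : ℝ) 1) : 1 / 2 ≤ cos d := by
  have h1 := Real.one_sub_sq_div_two_le_cos (x := d)
  have h2 : d ^ 2 ≤ 1 := by nlinarith [hd.1, hd.2]
  linarith

theorem t : IB408.S_L1 := by
  intro h hcont hb
  have hcontOn : ∀ θ, ContinuousOn (fun d => h (θ + d) / cos d) (Icc (-1 : ℝ) 1) := by
    intro θ
    refine ContinuousOn.div (by fun_prop) (by fun_prop) ?_
    intro d hd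
    have := cos_lb hd
    linarith
  have hA : ∀ θ, ∃ d ∈ Icc (-1 : ℝ) 1, Leg h θ = h (θ + d) / cos d := by
    intro θ
    obtain ⟨d, hd, h2⟩ := isCompact_Icc.exists_sInf_image_eq (nonempty_Icc.2 (by norm_num : (-1:ℝ) ≤ 1)) (hcontOn θ)
    exact ⟨d, hd, h2⟩
  have hB : ∀ θ, ∀ d ∈ Icc (-1 : ℝ) 1, Leg h θ ≤ h (θ + d) / cos d := by
    intro θ d hd
    exact csInf_le (isCompact_Icc.bddBelow_image (hcontOn θ)) ⟨d, hd, rfl⟩
  refine ⟨hA, hB, ?_, ?_, ?_⟩
  · have h1 : Continuous fun θ => sInf ((fun d => h (θ + d) / max (cos d) (1 / 2)) '' Icc (-1 : ℝ) 1) := by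
      apply isCompact_Icc.continuous_sInf (f := fun θ d => h (θ + d) / max (cos d) (1 / 2))
      have : Continuous fun p : ℝ × ℝ => h (p.1 + p.2) / max (cos p.2) (1 / 2) := by
        refine Continuous.div (by fun_prop) (by fun_prop) ?_
        intro p
        have : (1:ℝ)/2 ≤ max (cos p.2) (1 / 2) := le_max_right _ _
        linarith
      exact this
    have h2 : (Leg h) = fun θ => sInf ((fun d => h (θ + d) / max (cos d) (1 / 2)) '' Icc (-1 : ℝ) 1) := by
      funext θ
      unfold Leg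
      congr 1
      apply image_congr
      intro d hd
      rw [max_eq_left (cos_lb hd)]
    rw [h2]; exact h1
  · intro e he hh θ
    obtain ⟨d, hd, h2⟩ := hA θ
    have h0 := hB θ 0 (by constructor <;> norm_num)
    simp only [add_zero, cos_zero, div_one] at h0
    have e1 := abs_le.1 (hh θ)
    have e2 := abs_le.1 (hh (θ + d))
    have c1 := cos_lb hd
    have c2 := cos_le_one d
    rw [abs_le]
    constructor
    · rw [h2]
      have : (1 - e) ≤ h (θ + d) / cos d := by
        rw [le_div_iff₀ (by linarith)]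
        nlinarith
      linarith
    · linarith
  · intro g hg hgb η hη
    have hη0 : 0 ≤ η := le_trans (abs_nonneg _) (hη 0)
    have key : ∀ (f k : ℝ → ℝ), (∀ θ, ∃ d ∈ Icc (-1 : ℝ) 1, Leg f θ = f (θ + d) / cos d) →
        (∀ θ, ∀ d ∈ Icc (-1 : ℝ) 1, Leg k θ ≤ k (θ + d) / cos d) → (∀ ψ, |f ψ - k ψ| ≤ η) →
        ∀ θ, Leg k θ - Leg f θ ≤ 2 * η := by
      intro f k hf hk hfk θ
      obtain ⟨d, hd, h2⟩ := hf θ
      have h3 := hk θ d hd
      have c1 := cos_lb hd
      have e1 := abs_le.1 (hfk (θ + d))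
      rw [h2]
      have : k (θ + d) / cos d - f (θ + d) / cos d ≤ 2 * η := by
        rw [← sub_div, div_le_iff₀ (by linarith)]
        nlinarith [e1.1, e1.2]
      linarith
    have hcontOng : ∀ θ, ContinuousOn (fun d => g (θ + d) / cos d) (Icc (-1 : ℝ) 1) := by
      intro θ
      refine ContinuousOn.div (by fun_prop) (by fun_prop) ?_
      intro d hd
      have := cos_lb hd
      linarith
    have hAg : ∀ θ, ∃ d ∈ Icc (-1 : ℝ) 1, Leg g θ = g (θ + d) / cos d := by
      intro θ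
      obtain ⟨d, hd, h2⟩ := isCompact_Icc.exists_sInf_image_eq (nonempty_Icc.2 (by norm_num : (-1:ℝ) ≤ 1)) (hcontOng θ)
      exact ⟨d, hd, h2⟩
    have hBg : ∀ θ, ∀ d ∈ Icc (-1 : ℝ) 1, Leg g θ ≤ g (θ + d) / cos d := by
      intro θ d hd
      exact csInf_le (isCompact_Icc.bddBelow_image (hcontOng θ)) ⟨d, hd, rfl⟩
    intro θ
    rw [abs_le]
    constructor
    · have := key h g hA hBg hη θ
      linarith
    · have := key g h hAg hB (fun ψ => by rw [abs_sub_comm]; exact hη ψ) θ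
      linarith

end N408.IB.L1
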